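import Pool.Agent.Helper40.W4.Spec

/-!
# W4, part DVP: the `p`-adic places of `F(X)`
-/

set_option autoImplicit false

namespace Pool.Agent.Helper77.W4

open Polynomial Module IsDedekindDomain
open Pool.Agent.Helper40.W4

section

variable {F : Type} [Field F] (p : F[X]) [hp : Fact (Irreducible p)]

/-- The prime `(p)`. -/
noncomputable def hv : HeightOneSpectrum F[X] where
  asIdeal := Ideal.span {p}
  isPrime := (Ideal.span_singleton_prime hp.out.ne_zero).2 hp.out.prime
  ne_bot := by simpa [Ideal.span_singleton_eq_bot] using hp.out.ne_zero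

lemma hv_asIdeal : (hv p).asIdeal = Ideal.span {p} := rfl

/-- the `p`-adic valuation -/
noncomputable def vv : Valuation (RatFunc F) (WithZero (Multiplicative ℤ)) :=
  (hv p).valuation (RatFunc F)

lemma vv_le_one (g : F[X]) : vv p (algebraMap F[X] (RatFunc F) g) ≤ 1 :=
  (hv p).valuation_le_one g

lemma vv_lt_one_iff (g : F[X]) : vv p (algebraMap F[X] (RatFunc F) g) < 1 ↔ p ∣ g := by
  rw [vv, HeightOneSpectrum.valuation_lt_one_iff_dvd, hv_asIdeal, Ideal.dvd_iff_le,
    Ideal.span_singleton_le_span_singleton]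

lemma vv_eq_one {g : F[X]} (h : ¬ p ∣ g) : vv p (algebraMap F[X] (RatFunc F) g) = 1 :=
  le_antisymm (vv_le_one p g) (not_lt.1 fun h1 => h ((vv_lt_one_iff p g).1 h1))

lemma vv_p : vv p (algebraMap F[X] (RatFunc F) p) = WithZero.exp (-1 : ℤ) := by
  rw [vv, HeightOneSpectrum.valuation_of_algebraMap]
  exact (hv p).intValuation_singleton hp.out.ne_zero rfl

/-- the order -/
noncomputable def oo : (RatFunc F)ˣ →* Multiplicative ℤ :=
  (((WithZero.unitsWithZeroEquiv (α := Multiplicative ℤ)).toMonoidHom).comp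
    (Units.map (vv p).toMonoidWithZeroHom.toMonoidHom))⁻¹

lemma oo_eq (x : (RatFunc F)ˣ) :
    vv p x = ((oo p x)⁻¹ : Multiplicative ℤ) := by
  have h : ((WithZero.unitsWithZeroEquiv (Units.map (vv p).toMonoidWithZeroHom.toMonoidHom x) :
      Multiplicative ℤ) : WithZero (Multiplicative ℤ)) = vv p x := by
    rw [WithZero.coe_unitsWithZeroEquiv_eq_units_val]
    rfl
  rw [← h]
  congr 1
  simp [oo]

lemma oo_nonneg_iff (x : (RatFunc F)ˣ) : 0 ≤ (oo p x).toAdd ↔ vv p x ≤ 1 := by
  rw [oo_eq, ← WithZero.coe_one, WithZero.coe_le_coe, inv_le_one']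
  rfl

lemma oo_pos_iff (x : (RatFunc F)ˣ) : 0 < (oo p x).toAdd ↔ vv p x < 1 := by
  rw [oo_eq, ← WithZero.coe_one, WithZero.coe_lt_coe, inv_lt_one']
  rfl

lemma oo_eq_one_iff (x : (RatFunc F)ˣ) : oo p x = 1 ↔ vv p x = 1 := by
  rw [oo_eq, ← WithZero.coe_one, WithZero.coe_inj, inv_eq_one]

/-- the local ring -/
abbrev Sp := Localization.AtPrime (hv p).asIdeal

lemma not_dvd_of_mem (y : (hv p).asIdeal.primeCompl) : ¬ p ∣ (y : F[X]) := fun h =>
  y.2 (Ideal.mem_span_singleton.2 h)

/-- embedding -/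
noncomputable def jj : Sp p →+* RatFunc F :=
  IsLocalization.lift (M := (hv p).asIdeal.primeCompl) (g := algebraMap F[X] (RatFunc F)) (by
    intro y
    refine IsUnit.mk0 _ ?_
    intro h
    have : (y : F[X]) = 0 := (map_eq_zero_iff _ (RatFunc.algebraMap_injective F)).1 h
    exact not_dvd_of_mem p y (this ▸ dvd_zero p))

/-- residue on the local ring -/
noncomputable def rr : Sp p →+* AdjoinRoot p :=
  IsLocalization.lift (M := (hv p).asIdeal.primeCompl) (g := AdjoinRoot.mk p) (by
    intro y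
    refine IsUnit.mk0 _ ?_
    intro h
    exact not_dvd_of_mem p y (AdjoinRoot.mk_eq_zero.1 h))

lemma jj_inj : Function.Injective (jj p) := by
  rw [jj, IsLocalization.lift_injective_iff]
  intro x y
  rw [(IsLocalization.injective (Sp p) (hv p).asIdeal.primeCompl_le_nonZeroDivisors).eq_iff,
    (RatFunc.algebraMap_injective F).eq_iff]

lemma jj_mk (a : F[X]) (b : (hv p).asIdeal.primeCompl) :
    jj p (IsLocalization.mk' (Sp p) a b) * algebraMap F[X] (RatFunc F) b =
      algebraMap F[X] (RatFunc F) a := by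
  rw [jj, mul_comm]
  exact (IsLocalization.lift_mk'_spec _ _ _ _).1 rfl |>.symm

lemma rr_mk (a : F[X]) (b : (hv p).asIdeal.primeCompl) :
    rr p (IsLocalization.mk' (Sp p) a b) * AdjoinRoot.mk p b =
      AdjoinRoot.mk p a := by
  rw [rr, mul_comm]
  exact (IsLocalization.lift_mk'_spec _ _ _ _).1 rfl |>.symm

lemma mem_range (x : RatFunc F) (h : vv p x ≤ 1) : x ∈ (jj p).range := by
  have hd : ¬ p ∣ x.denom := by
    intro hd
    have hcop := RatFunc.isCoprime_num_denom x
    have hn : ¬ p ∣ x.num := fun hn => hp.out.not_isUnit (hcop.isUnit_of_dvd' hn hd)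
    have h1 : x * algebraMap F[X] (RatFunc F) x.denom = algebraMap F[X] (RatFunc F) x.num := by
      have := RatFunc.num_div_denom x
      have hne : algebraMap F[X] (RatFunc F) x.denom ≠ 0 := by
        rw [Ne, map_eq_zero_iff _ (RatFunc.algebraMap_injective F)]
        exact RatFunc.denom_ne_zero x
      rw [div_eq_iff hne] at this
      exact this.symm
    have h2 := congrArg (vv p) h1
    rw [map_mul, vv_eq_one p hn] at h2
    have h3 : vv p (algebraMap F[X] (RatFunc F) x.denom) < 1 := (vv_lt_one_iff p _).2 hd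
    have h4 : vv p x * vv p (algebraMap F[X] (RatFunc F) x.denom) < 1 :=
      lt_of_le_of_lt (mul_le_of_le_one_left' h) h3
    exact absurd h2 h4.ne
  have hdm : x.denom ∈ (hv p).asIdeal.primeCompl := fun h => hd (Ideal.mem_span_singleton.1 h)
  refine ⟨IsLocalization.mk' (Sp p) x.num ⟨x.denom, hdm⟩, ?_⟩
  have h1 := jj_mk p x.num ⟨x.denom, hdm⟩
  have hne : algebraMap F[X] (RatFunc F) x.denom ≠ 0 := by
    rw [Ne, map_eq_zero_iff _ (RatFunc.algebraMap_injective F)]
    exact RatFunc.denom_ne_zero x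
  have := RatFunc.num_div_denom x
  rw [div_eq_iff hne] at this
  simp only at h1
  rw [this] at h1
  exact mul_right_cancel₀ hne h1

lemma vv_jj (s : Sp p) : vv p (jj p s) ≤ 1 ∧ (vv p (jj p s) < 1 ↔ rr p s = 0) := by
  obtain ⟨a, b, rfl⟩ := IsLocalization.exists_mk'_eq (hv p).asIdeal.primeCompl s
  have h1 := congrArg (vv p) (jj_mk p a b)
  rw [map_mul, vv_eq_one p (not_dvd_of_mem p b), mul_one] at h1
  rw [h1]
  refine ⟨vv_le_one p a, ?_⟩
  rw [vv_lt_one_iff]
  have h2 := rr_mk p a b
  have h3 : AdjoinRoot.mk p (b : F[X]) ≠ 0 := fun h =>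
    not_dvd_of_mem p b (AdjoinRoot.mk_eq_zero.1 h)
  rw [← AdjoinRoot.mk_eq_zero, ← h2, mul_eq_zero]
  simp [h3]

/-- local ring and its image -/
noncomputable def ee : Sp p ≃+* (jj p).range :=
  RingEquiv.ofBijective (jj p).rangeRestrict
    ⟨fun _ _ h => jj_inj p (congrArg Subtype.val h), (jj p).rangeRestrict_surjective⟩

/-- the place -/
noncomputable def PP : DV (RatFunc F) (AdjoinRoot p) where
  O := (jj p).range
  res := (rr p).comp ((ee p).symm : (jj p).range →+* Sp p)
  ord := oo p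
  π := Units.mk0 (algebraMap F[X] (RatFunc F) p) (by
    rw [Ne, map_eq_zero_iff _ (RatFunc.algebraMap_injective F)]
    exact hp.out.ne_zero)
  ord_π := by
    have h := oo_eq p (Units.mk0 (algebraMap F[X] (RatFunc F) p) (by
      rw [Ne, map_eq_zero_iff _ (RatFunc.algebraMap_injective F)]
      exact hp.out.ne_zero))
    rw [Units.val_mk0, vv_p] at h
    have h2 : (oo p (Units.mk0 (algebraMap F[X] (RatFunc F) p) (by
      rw [Ne, map_eq_zero_iff _ (RatFunc.algebraMap_injective F)]
      exact hp.out.ne_zero)))⁻¹ = Multiplicative.ofAdd (-1 : ℤ) := by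
      apply WithZero.coe_inj.1
      exact h.symm
    rw [inv_eq_iff_eq_inv] at h2
    rw [h2]
    rfl
  mem_O := by
    intro x
    rw [oo_nonneg_iff]
    constructor
    · rintro ⟨s, hs⟩
      rw [← hs]
      exact (vv_jj p s).1
    · exact mem_range p x
  res_eq_zero := by
    intro x h
    rw [oo_pos_iff]
    obtain ⟨s, hs⟩ := h
    have h1 : (⟨(x : RatFunc F), ⟨s, hs⟩⟩ : (jj p).range) = ee p s := by
      ext
      exact hs.symm
    have h2 : ((rr p).comp ((ee p).symm : (jj p).range →+* Sp p)) ⟨(x : RatFunc F), ⟨s, hs⟩⟩ =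
        rr p s := by
      rw [RingHom.comp_apply, h1]
      exact congrArg (rr p) ((ee p).symm_apply_apply s)
    have h3 := (vv_jj p s).2
    rw [hs] at h3
    rw [h3]
    exact ⟨fun h => h2.symm.trans h, fun h => h2.trans h⟩

end

theorem dvp_thm : S_DVP := by
  intro F _ _ p hp
  refine ⟨PP p, ?_, rfl⟩
  intro g u hg hu
  have h1 : (PP p).ord u = 1 := by
    show oo p u = 1
    rw [oo_eq_one_iff, hu]
    exact vv_eq_one p hg
  refine ⟨h1, ?_⟩
  rw [DV.ac_of_ord _ u h1]
  show (rr p).comp ((ee p).symm : (jj p).range →+* Sp p) ⟨u, _⟩ = _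
  rw [RingHom.comp_apply]
  have h3 : (⟨(u : RatFunc F), (PP p).mem_of_ord u h1⟩ : (jj p).range) =
      ee p (algebraMap F[X] (Sp p) g) := by
    ext
    show (u : RatFunc F) = jj p (algebraMap F[X] (Sp p) g)
    rw [hu, jj, IsLocalization.lift_eq]
  have h4 : ((ee p).symm : (jj p).range →+* Sp p) ⟨(u : RatFunc F), (PP p).mem_of_ord u h1⟩ =
      algebraMap F[X] (Sp p) g := by
    rw [h3]
    exact (ee p).symm_apply_apply _
  rw [h4, rr, IsLocalization.lift_eq]

end Pool.Agent.Helper77.W4
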