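import Pool.Agent.Helper77.W4.DVP

/-!
# W4, part I4: torsion in `I⁴` of the rational function field
-/

set_option autoImplicit false

namespace Pool.Agent.Helper77.W4

open Polynomial Module
open Pool.Agent.Helper40.W4

lemma Wmap_left_inverse {K L : Type} [Field K] [Field L] (j : K →+* L) (g : L →+* K)
    (h : ∀ x, g (j x) = x) (η : W K) : Wmap g (Wmap j η) = η := by
  induction η using W_induction with
  | hbr a =>
    rw [Wmap_br, Wmap_br]
    congr 1
    ext
    exact h a
  | h0 => simp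
  | hadd x y hx hy => rw [map_add, map_add, hx, hy]
  | hneg x hx => rw [map_neg, map_neg, hx]

lemma addHom_ext {K κ : Type} [Field K] [Field κ] (d d' : W K →+ W κ)
    (h : ∀ a, d (br a) = d' (br a)) (ξ : W K) : d ξ = d' ξ := by
  induction ξ using W_induction with
  | hbr a => exact h a
  | h0 => simp
  | hadd x y hx hy => rw [map_add, map_add, hx, hy]
  | hneg x hx => rw [map_neg, map_neg, hx]

lemma isRes_unique {K κ : Type} [Field K] [Field κ] (P : DV K κ) (d d' : W K →+ W κ)
    (h : IsRes P d) (h' : IsRes P d') (ξ : W K) : d ξ = d' ξ := by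
  refine addHom_ext d d' (fun a => ?_) ξ
  rcases Int.even_or_odd (P.ord a).toAdd with he | ho
  · rw [h.1 a he, h'.1 a he]
  · rw [h.2 a ho, h'.2 a ho]

lemma map_natmul {K κ : Type} [Field K] [Field κ] (d : W K →+ W κ) (N : ℕ) (ξ : W K) :
    d ((N : W K) * ξ) = (N : W κ) * d ξ := by
  rw [← nsmul_eq_mul, map_nsmul, nsmul_eq_mul]

theorem i4_thm (hPHI : S_PHI) (hMIL : S_MIL) : S_I4 := by
  intro F _ _ hL ξ hξ N hN hNξ
  have hmain : ∀ (p : F[X]) [hp : Fact (Irreducible p)],
      ∀ P : DV (RatFunc F) (AdjoinRoot p), PolyDV p P →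
      ∀ d : W (RatFunc F) →+ W (AdjoinRoot p), IsRes P d → d ξ = 0 := by
    intro p hp P hP d hd
    have : CharZero (AdjoinRoot p) := charZero_of_injective_algebraMap
      (AdjoinRoot.of p).injective (R := F)
    obtain ⟨d₀, d₁, -, -, h1, h2⟩ := hPHI (RatFunc F) (AdjoinRoot p) P
    have h3 := (h2 3 ξ hξ).2.1
    have : FiniteDimensional F (AdjoinRoot p) := (AdjoinRoot.powerBasis hp.out.ne_zero).finite
    rw [isRes_unique P d d₁ hd h1 ξ]
    refine hL (AdjoinRoot p) _ h3 N hN ?_
    rw [← map_natmul, hNξ, map_zero]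
  obtain ⟨η, rfl⟩ := hMIL F ξ (fun p hp _ P hP d hd => hmain p P hP d hd)
  have hX : Fact (Irreducible (X : F[X])) := ⟨Polynomial.irreducible_X⟩
  have : CharZero (AdjoinRoot (X : F[X])) := charZero_of_injective_algebraMap
    (AdjoinRoot.of (X : F[X])).injective (R := F)
  have : FiniteDimensional F (AdjoinRoot (X : F[X])) :=
    (AdjoinRoot.powerBasis (hX.out.ne_zero)).finite
  obtain ⟨P, hP⟩ := dvp_thm F (X : F[X])
  obtain ⟨d₀, d₁, h01, h02, h1, h2⟩ := hPHI (RatFunc F) (AdjoinRoot (X : F[X])) P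
  have hval : ∀ a : Fˣ, P.ord (Units.map (RatFunc.C : F →+* RatFunc F).toMonoidHom a) = 1 ∧
      P.ac (Units.map (RatFunc.C : F →+* RatFunc F).toMonoidHom a) =
        Units.map (AdjoinRoot.of (X : F[X])).toMonoidHom a := by
    intro a
    have h := hP.1 (C (a : F)) (Units.map (RatFunc.C : F →+* RatFunc F).toMonoidHom a) (by
      rw [Polynomial.X_dvd_iff, coeff_C_zero]
      exact a.ne_zero) (by simp)
    refine ⟨h.1, ?_⟩
    ext
    rw [h.2]
    rfl
  have hd0 : ∀ η : W F, d₀ (Wmap RatFunc.C η) = Wmap (AdjoinRoot.of (X : F[X])) η := by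
    intro η
    induction η using W_induction with
    | hbr a =>
      rw [Wmap_br, Wmap_br, h02 _ (by rw [(hval a).1]; simp), (hval a).2]
    | h0 => simp
    | hadd x y hx hy => rw [map_add, map_add, hx, hy, map_add]
    | hneg x hx => rw [map_neg, map_neg, hx, map_neg]
  have hd1 : ∀ η : W F, d₁ (Wmap RatFunc.C η) = 0 := by
    intro η
    induction η using W_induction with
    | hbr a =>
      rw [Wmap_br, h1.1 _ (by rw [(hval a).1]; simp)]
    | h0 => simp
    | hadd x y hx hy => rw [map_add, map_add, hx, hy, add_zero]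
    | hneg x hx => rw [map_neg, map_neg, hx, neg_zero]
  have h3 := (h2 3 _ hξ).2.2
  rw [hd0, hd1, add_zero] at h3
  have h4 : Wmap (AdjoinRoot.of (X : F[X])) η = 0 := by
    refine hL (AdjoinRoot (X : F[X])) _ (Ideal.pow_le_pow_right (by norm_num) h3) N hN ?_
    rw [← hd0, ← map_natmul, hNξ, map_zero]
  have h5 : η = 0 := by
    have h6 := Wmap_left_inverse (AdjoinRoot.of (X : F[X]))
      (AdjoinRoot.lift (RingHom.id F) 0 (by simp)) (fun x => by simp) η
    rw [h4, map_zero] at h6
    exact h6.symm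
  rw [h5, map_zero]

end Pool.Agent.Helper77.W4
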