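import Pool.Agent.Helper40.W4.Spec

/-!
# W4, part NSP
-/

set_option autoImplicit false

namespace Pool.Agent.Helper77.W4

open Polynomial Module
open Pool.Agent.Helper40.W4

section

variable {k : Type} [Field k] [CharZero k]

omit [CharZero k] in
lemma aniso {α β : k} (hα : ¬ IsSquare α) (h : ∀ x₀ y₀ : k, x₀ ^ 2 ≠ α * y₀ ^ 2 + β)
    {x y z : k} (e : x ^ 2 = α * y ^ 2 + β * z ^ 2) : x = 0 ∧ y = 0 ∧ z = 0 := by
  have hz : z = 0 := by
    by_contra hz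
    apply h (x / z) (y / z)
    field_simp
    linear_combination e
  subst hz
  have hy : y = 0 := by
    by_contra hy
    apply hα
    refine ⟨x / y, ?_⟩
    field_simp
    linear_combination -e
  subst hy
  refine ⟨?_, rfl, rfl⟩
  simpa using e

lemma step0 {a s α β : k} (hs : s ≠ 0) (hα : ¬ IsSquare α)
    (h : ∀ x₀ y₀ : k, x₀ ^ 2 ≠ α * y₀ ^ 2 + β) {x1 x2 y1 y2 z1 z2 : k[X]}
    (e1 : x1 ^ 2 + fpoly a (s ^ 2) * x2 ^ 2 = C α * (y1 ^ 2 + fpoly a (s ^ 2) * y2 ^ 2) +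
      C β * (z1 ^ 2 + fpoly a (s ^ 2) * z2 ^ 2))
    (e2 : x1 * x2 = C α * (y1 * y2) + C β * (z1 * z2)) :
    X ∣ x1 ∧ X ∣ x2 ∧ X ∣ y1 ∧ X ∣ y2 ∧ X ∣ z1 ∧ X ∣ z2 := by
  have f0 : (fpoly a (s ^ 2)).eval 0 = s ^ 2 := by simp [fpoly]
  have e1' := congrArg (eval 0) e1
  have e2' := congrArg (eval 0) e2
  simp only [eval_add, eval_mul, eval_pow, eval_C, f0] at e1' e2'
  have g1 : (x1.eval 0 + s * x2.eval 0) ^ 2 = α * (y1.eval 0 + s * y2.eval 0) ^ 2 +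
      β * (z1.eval 0 + s * z2.eval 0) ^ 2 := by linear_combination e1' + 2 * s * e2'
  have g2 : (x1.eval 0 - s * x2.eval 0) ^ 2 = α * (y1.eval 0 - s * y2.eval 0) ^ 2 +
      β * (z1.eval 0 - s * z2.eval 0) ^ 2 := by linear_combination e1' - 2 * s * e2'
  obtain ⟨a1, a2, a3⟩ := aniso hα h g1
  obtain ⟨b1, b2, b3⟩ := aniso hα h g2
  have two : (2 : k) ≠ 0 := two_ne_zero
  have key : ∀ u v : k, u + s * v = 0 → u - s * v = 0 → u = 0 ∧ v = 0 := by
    intro u v h1 h2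
    have hu : 2 * u = 0 := by linear_combination h1 + h2
    have hu' : u = 0 := (mul_eq_zero.1 hu).resolve_left two
    subst hu'
    refine ⟨rfl, ?_⟩
    have : s * v = 0 := by linear_combination h1
    exact (mul_eq_zero.1 this).resolve_left hs
  obtain ⟨c1, c2⟩ := key _ _ a1 b1
  obtain ⟨c3, c4⟩ := key _ _ a2 b2
  obtain ⟨c5, c6⟩ := key _ _ a3 b3
  simp only [X_dvd_iff, coeff_zero_eq_eval_zero]
  exact ⟨c1, c2, c3, c4, c5, c6⟩

lemma stepn {a s α β : k} (hs : s ≠ 0) (hα : ¬ IsSquare α)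
    (h : ∀ x₀ y₀ : k, x₀ ^ 2 ≠ α * y₀ ^ 2 + β) (n : ℕ) : ∀ {x1 x2 y1 y2 z1 z2 : k[X]},
    x1 ^ 2 + fpoly a (s ^ 2) * x2 ^ 2 = C α * (y1 ^ 2 + fpoly a (s ^ 2) * y2 ^ 2) +
      C β * (z1 ^ 2 + fpoly a (s ^ 2) * z2 ^ 2) →
    x1 * x2 = C α * (y1 * y2) + C β * (z1 * z2) →
    X ^ n ∣ x1 ∧ X ^ n ∣ x2 ∧ X ^ n ∣ y1 ∧ X ^ n ∣ y2 ∧ X ^ n ∣ z1 ∧ X ^ n ∣ z2 := by
  induction n with
  | zero => intro x1 x2 y1 y2 z1 z2 _ _; simp
  | succ n ih =>
    intro x1 x2 y1 y2 z1 z2 e1 e2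
    obtain ⟨⟨u1, rfl⟩, ⟨u2, rfl⟩, ⟨v1, rfl⟩, ⟨v2, rfl⟩, ⟨w1, rfl⟩, ⟨w2, rfl⟩⟩ :=
      step0 hs hα h e1 e2
    have hX : (X : k[X]) ^ 2 ≠ 0 := pow_ne_zero _ X_ne_zero
    have e1' : u1 ^ 2 + fpoly a (s ^ 2) * u2 ^ 2 = C α * (v1 ^ 2 + fpoly a (s ^ 2) * v2 ^ 2) +
        C β * (w1 ^ 2 + fpoly a (s ^ 2) * w2 ^ 2) := by
      apply mul_left_cancel₀ hX
      linear_combination e1
    have e2' : u1 * u2 = C α * (v1 * v2) + C β * (w1 * w2) := by
      apply mul_left_cancel₀ hX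
      linear_combination e2
    obtain ⟨h1, h2, h3, h4, h5, h6⟩ := ih e1' e2'
    simp only [pow_succ']
    exact ⟨mul_dvd_mul_left _ h1, mul_dvd_mul_left _ h2, mul_dvd_mul_left _ h3,
      mul_dvd_mul_left _ h4, mul_dvd_mul_left _ h5, mul_dvd_mul_left _ h6⟩

omit [CharZero k] in
lemma eq_zero_of_all {p : k[X]} (h : ∀ n : ℕ, X ^ n ∣ p) : p = 0 := by
  by_contra hp
  have := natDegree_le_of_dvd (h (p.natDegree + 1)) hp
  rw [natDegree_X_pow] at this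
  omega

lemma anisoB {a s α β : k} (hs : s ≠ 0) (hα : ¬ IsSquare α)
    (h : ∀ x₀ y₀ : k, x₀ ^ 2 ≠ α * y₀ ^ 2 + β) {x y z : BB k a (s ^ 2)}
    (e : x ^ 2 = algebraMap k _ α * y ^ 2 + algebraMap k _ β * z ^ 2) :
    x = 0 ∧ y = 0 ∧ z = 0 := by
  have hre : ∀ c : k, (algebraMap k (BB k a (s ^ 2)) c).re = C c := fun c => rfl
  have him : ∀ c : k, (algebraMap k (BB k a (s ^ 2)) c).im = 0 := fun c => rfl
  have e1 := congrArg QuadraticAlgebra.re e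
  have e2 := congrArg QuadraticAlgebra.im e
  simp only [pow_two, QuadraticAlgebra.re_add, QuadraticAlgebra.im_add, QuadraticAlgebra.re_mul,
    QuadraticAlgebra.im_mul, hre, him, zero_mul, mul_zero, add_zero] at e1 e2
  have E1 : x.re ^ 2 + fpoly a (s ^ 2) * x.im ^ 2 =
      C α * (y.re ^ 2 + fpoly a (s ^ 2) * y.im ^ 2) +
      C β * (z.re ^ 2 + fpoly a (s ^ 2) * z.im ^ 2) := by
    have : s ^ 2 = s * s := pow_two s
    simp only [this]
    linear_combination e1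
  have two : (2 : k[X]) ≠ 0 := two_ne_zero
  have E2 : x.re * x.im = C α * (y.re * y.im) + C β * (z.re * z.im) := by
    apply mul_left_cancel₀ two
    linear_combination e2
  have key := fun n => stepn hs hα h n E1 E2
  refine ⟨?_, ?_, ?_⟩
  · ext1
    · exact eq_zero_of_all fun n => (key n).1
    · exact eq_zero_of_all fun n => (key n).2.1
  · ext1
    · exact eq_zero_of_all fun n => (key n).2.2.1
    · exact eq_zero_of_all fun n => (key n).2.2.2.1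
  · ext1
    · exact eq_zero_of_all fun n => (key n).2.2.2.2.1
    · exact eq_zero_of_all fun n => (key n).2.2.2.2.2

end

theorem nsp_thm : S_NSP := by
  intro k _ _ a s _ hs α β hα _ h κ _ _ _ φ hφ
  have inj : Function.Injective (algebraMap (BB k a (s ^ 2)) κ) :=
    IsFractionRing.injective (BB k a (s ^ 2)) κ
  have main : ∀ x y z : κ, x ^ 2 = φ α * y ^ 2 + φ β * z ^ 2 → y = 0 ∧ z = 0 := by
    intro x y z e
    obtain ⟨⟨b, hb⟩, hx⟩ := IsLocalization.exist_integer_multiples_of_finite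
      (nonZeroDivisors (BB k a (s ^ 2))) (S := κ) (![x, y, z] : Fin 3 → κ)
    obtain ⟨x', hx'⟩ := hx 0
    obtain ⟨y', hy'⟩ := hx 1
    obtain ⟨z', hz'⟩ := hx 2
    simp only [Matrix.cons_val_zero, Matrix.cons_val_one, Matrix.cons_val] at hx' hy' hz'
    simp only [Algebra.smul_def] at hx' hy' hz'
    have hb0 : algebraMap (BB k a (s ^ 2)) κ b ≠ 0 :=
      IsLocalization.to_map_ne_zero_of_mem_nonZeroDivisors κ le_rfl hb
    have E : x' ^ 2 = algebraMap k _ α * y' ^ 2 + algebraMap k _ β * z' ^ 2 := by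
      apply inj
      rw [map_add, map_mul, map_mul, map_pow, map_pow, map_pow, ← hφ, ← hφ, hx', hy', hz']
      linear_combination (algebraMap (BB k a (s ^ 2)) κ b) ^ 2 * e
    obtain ⟨-, h2, h3⟩ := anisoB hs hα h E
    rw [h2, map_zero] at hy'
    rw [h3, map_zero] at hz'
    exact ⟨(mul_eq_zero.1 hy'.symm).resolve_left hb0, (mul_eq_zero.1 hz'.symm).resolve_left hb0⟩
  constructor
  · rintro ⟨r, hr⟩
    have := (main r 1 0 (by rw [hr]; ring)).1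
    exact one_ne_zero this
  · intro x₀ y₀ e
    have := (main x₀ y₀ 1 (by rw [e]; ring)).2
    exact one_ne_zero this

end Pool.Agent.Helper77.W4
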